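import Mathlib
import Pool.Agent.Clonoid.Defs
import Pool.Agent.Clonoid.Proof

set_option autoImplicit false

namespace Pool.Agent.Results.MP_2f8e94_al.FiniteBasis

open Pool.Agent.Clonoid

universe u v w x y

/-- **Finite equational bases.** Let `R` and `S` be finite rings, `A` an `R`-module, `B` an
`S`-module (for instance finite modules) and `F` a finite family of finitary operations
`F i : A ^ (ar i) → B`. There is a finite set `E` of identities true in the two-sorted algebra
`M(A, B, F)` from which every identity true in `M(A, B, F)` can be derived. -/
theorem result {R : Type u} {S : Type v} {ι : Type w} {A : Type x} {B : Type y}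
    [Ring R] [Finite R] [Ring S] [Finite S] [Finite ι]
    [AddCommGroup A] [Module R A] [AddCommGroup B] [Module S B]
    (ar : ι → ℕ) (F : ∀ i, (Fin (ar i) → A) → B) :
    ∃ E : Set (Identity R S ar), E.Finite ∧ (∀ e ∈ E, Holds F e) ∧
      ∀ e : Identity R S ar, Holds F e → Derivable E e :=
  finite_basis ar F

end Pool.Agent.Results.MP_2f8e94_al.FiniteBasis
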